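import Pool.Agent.H853.BoolProd.Base

set_option autoImplicit false

/-!
# The class of Boolean (m, n)-products need not have a smallest element, for infinite n
-/

open Cardinal Set
open Pool.Agent.H853.BoolProd

namespace Pool.Agent.Results.MP_6fd33d_al.NoSmallest

/-- `({i t}, B)` is a Boolean `(m, n)`-product of the family `{A t}`, for infinite cardinals
`n ≤ m`. -/
structure IsProd (m n : Cardinal.{0}) {T : Type} (A : T → Type) [∀ t, BooleanAlgebra (A t)]
    (B : Type) [BooleanAlgebra B] (i : ∀ t, A t → B) : Prop where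
  alg : IsMAlg m B
  hom : ∀ t, IsMHom m (i t)
  inj : ∀ t, Function.Injective (i t)
  indep : ∀ F : Set T, #F ≤ n → ∀ a : ∀ t, A t, (∀ t ∈ F, a t ≠ ⊥) →
    ∃ c, IsGLB ((fun t => i t (a t)) '' F) c ∧ c ≠ ⊥
  gen : Gen m i

/-- A minimal `(m, n)`-product: the meets of at most `n` elements of different images are dense. -/
structure IsMinProd (m n : Cardinal.{0}) {T : Type} (A : T → Type) [∀ t, BooleanAlgebra (A t)]
    (B : Type) [BooleanAlgebra B] (i : ∀ t, A t → B) : Prop extends IsProd m n A B i where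
  dense : ∀ b : B, b ≠ ⊥ → ∃ F : Set T, #F ≤ n ∧ ∃ (a : ∀ t, A t) (c : B),
    IsGLB ((fun t => i t (a t)) '' F) c ∧ c ≠ ⊥ ∧ c ≤ b

/-- The order of the class of products: `({i' t}, B') ≤ ({i t}, B)`. -/
def Le (m : Cardinal.{0}) {T : Type} {A : T → Type} {B B' : Type} [BooleanAlgebra B]
    [BooleanAlgebra B'] (i' : ∀ t, A t → B') (i : ∀ t, A t → B) : Prop :=
  ∃ h : B → B', IsMHom m h ∧ ∀ t a, i' t a = h (i t a)

open Classical in
/-- The meets over subsets of `Bool`. -/
theorem glb_set {B' : Type} [BooleanAlgebra B'] (j : Bool → RO X → B')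
    (hind : ∀ a b : RO X, a ≠ ⊥ → b ≠ ⊥ → j false a ⊓ j true b ≠ ⊥) (F : Set Bool)
    (a : Bool → RO X) (ha : ∀ t ∈ F, a t ≠ ⊥) :
    ∃ c, IsGLB ((fun t => j t (a t)) '' F) c ∧ c ≠ ⊥ := by
  have hF : ∀ t, t ∈ F ↔ t ∈ F.toFinset := fun t => Set.mem_toFinset.symm
  refine ⟨F.toFinset.inf fun t => j t (a t), ⟨?_, ?_⟩, ?_⟩
  · rintro _ ⟨t, ht, rfl⟩
    exact Finset.inf_le ((hF t).1 ht)
  · intro w hw
    exact Finset.le_inf fun t ht => hw ⟨t, (hF t).2 ht, rfl⟩
  · intro h
    have ha' : ∀ t ∈ F.toFinset, a t ≠ ⊥ := fun t ht => ha t ((hF t).2 ht)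
    exact hind _ _ (fill_ne ha' false) (fill_ne ha' true)
      (le_bot_iff.1 ((le_inf_fill j _ a).trans h.le))

theorem isProd_B {m : Cardinal.{0}} (n : Cardinal.{0}) (hm : ℵ₀ ≤ m) :
    IsProd m n (fun _ : Bool => RO X) B i where
  alg := isMAlg_B m
  hom := i_hom m
  inj := i_injective
  indep F _ a ha := glb_set i (fun _ _ => i_indep) F a ha
  gen := gen_B hm

/-- the meet of the two elements as a meet over `Bool` -/
theorem glb_two {B' : Type} [BooleanAlgebra B'] (j : Bool → RO X → B') (a b : RO X) :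
    IsGLB ((fun t => j t (if t then b else a)) '' univ) (j false a ⊓ j true b) := by
  refine ⟨?_, ?_⟩
  · rintro _ ⟨t, -, rfl⟩
    cases t
    · exact inf_le_left
    · exact inf_le_right
  · intro w hw
    exact le_inf (hw ⟨false, mem_univ _, rfl⟩) (hw ⟨true, mem_univ _, rfl⟩)

theorem card_univ_le {n : Cardinal.{0}} (hn : ℵ₀ ≤ n) : #(univ : Set Bool) ≤ n :=
  ((Set.toFinite (univ : Set Bool)).lt_aleph0.le).trans hn

theorem isMinProd_M0 {m n : Cardinal.{0}} (hn : ℵ₀ ≤ n) (hm : ℵ₀ ≤ m) :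
    IsMinProd m n (fun _ : Bool => RO X) M0 j0 where
  alg := isMAlg_M0 m
  hom := j0_hom m
  inj := j0_injective
  indep F _ a ha := glb_set j0 (fun _ _ => j0_indep) F a ha
  gen := gen_M0 hm
  dense w hw := by
    obtain ⟨a, b, ha, hb, h⟩ := j0_dense hw
    exact ⟨univ, card_univ_le hn, fun t => if t then b else a, _, glb_two j0 a b,
      j0_indep ha hb, h⟩

/-- For all infinite cardinals `n ≤ m` there is a family of (two) Boolean algebras for which the class
of the Boolean `(m, n)`-products contains a minimal product, but has no smallest element; in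
particular the minimal product is not the smallest element. -/
theorem result (m n : Cardinal.{0}) (hn : ℵ₀ ≤ n) (hnm : n ≤ m) :
    ∃ (T : Type) (A : T → Type) (_ : ∀ t, BooleanAlgebra (A t)), (∀ t, Nontrivial (A t)) ∧
      (∃ (M : Type) (_ : BooleanAlgebra M) (j : ∀ t, A t → M), IsMinProd m n A M j) ∧
      ∀ (M : Type) (_ : BooleanAlgebra M) (j : ∀ t, A t → M), IsProd m n A M j →
        ∃ (B : Type) (_ : BooleanAlgebra B) (i : ∀ t, A t → B), IsProd m n A B i ∧ ¬ Le m j i := by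
  have hm := hn.trans hnm
  refine ⟨Bool, fun _ => RO X, fun _ => inferInstance, fun _ => inferInstance,
    ⟨M0, inferInstance, j0, isMinProd_M0 hn hm⟩, ?_⟩
  intro M _ j hj
  by_contra hcon
  push Not at hcon
  obtain ⟨g, hg, hgj⟩ := hcon M0 inferInstance j0 (isMinProd_M0 hn hm).toIsProd
  obtain ⟨h, hh, hhj⟩ := hcon B inferInstance i (isProd_B n hm)
  have hind : ∀ a b : RO X, a ≠ ⊥ → b ≠ ⊥ → j false a ⊓ j true b ≠ ⊥ := by
    intro a b ha hb
    obtain ⟨c, hc, hc0⟩ := hj.indep univ (card_univ_le hn) (fun t => if t then b else a) (by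
      intro t _
      cases t
      · exact ha
      · exact hb)
    rw [(glb_two j a b).unique hc]
    exact hc0
  refine no_hom hm j hj.hom hind ?_ h hh (fun t a => (hhj t a).symm)
  intro c hc
  obtain ⟨w, rfl⟩ := surj_of_gen hj.gen hg (fun t a => (hgj t a).symm) c
  have hw : w ≠ ⊥ := by
    rintro rfl
    exact hc hg.map_bot
  obtain ⟨a, b, ha, hb, h1⟩ := j0_dense hw
  refine ⟨a, b, hind a b ha hb, ?_⟩
  rw [hgj, hgj, ← hg.map_inf hm]
  exact hg.mono hm h1

end Pool.Agent.Results.MP_6fd33d_al.NoSmallest
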